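import Pool.Agent.X25.Pk.Final

/-!
# Packing the progressions of the multiples of the primes up to `√n`

`m_{ℙ(√n)}(n) ~ (4/3) n^{3/2} / ln n`.

Lower bound: progressions with coprime differences `d`, `e` which overlap in an interval of length `d e`
intersect; sum over the primes in the order of the left end points.  Upper bound: the primes of a short
block are placed one after the other; all but boundedly many primes `e` of the block can be placed next,
because the inverses of `e` modulo the boundedly many primes already placed nearby are in general position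
(if not, then `e` divides a nonzero integer with few large prime factors), by a quantitative form of
Kronecker's theorem.
-/

set_option autoImplicit false

namespace Pool.Agent.Results.MP_fdcff6_co.PrimesUpToSqrt

open Filter Topology

/-- `s + A_d`, where `A_d = {d, 2d, ..., ⌊n/d⌋ d}` -/
def shiftA (n d : ℕ) (s : ℤ) : Set ℤ := {x | ∃ i : ℕ, 1 ≤ i ∧ i ≤ n / d ∧ x = s + i * d}

/-- the family `{A_d : d ∈ D}` packs into `[m] = {1, ..., m}` -/
def PacksInto (n : ℕ) (D : Set ℕ) (m : ℕ) : Prop :=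
  ∃ s : ℕ → ℤ, (∀ d ∈ D, shiftA n d (s d) ⊆ Set.Icc 1 (m : ℤ)) ∧
    ∀ d ∈ D, ∀ e ∈ D, d ≠ e → shiftA n d (s d) ∩ shiftA n e (s e) = ∅

/-- `m_D(n)`: the least `m` such that `{A_d : d ∈ D}` packs into `[m]` -/
noncomputable def mD (n : ℕ) (D : Set ℕ) : ℕ := sInf {m : ℕ | PacksInto n D m}

/-- the set of the primes `p ≤ √n` -/
def P (n : ℕ) : Set ℕ := {p | p.Prime ∧ (p : ℝ) ≤ Real.sqrt n}

open Pool.Agent.X25.Pk in
lemma packs_iff (n m : ℕ) : PacksInto n (P n) m ↔ Packs (Pr (Real.sqrt n)) (fun d => n / d) m := by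
  have hmem : ∀ p, p ∈ Pr (Real.sqrt n) ↔ p ∈ P n := by
    intro p
    rw [mem_Pr (Real.sqrt_nonneg _)]
    rfl
  constructor
  · rintro ⟨s, h1, h2⟩
    refine ⟨s, ?_, ?_⟩
    · intro d hd i hi hi'
      have := h1 d ((hmem d).1 hd) (⟨i, hi, hi', rfl⟩ : s d + i * d ∈ shiftA n d (s d))
      exact this
    · intro d hd e he hde i j hi hi' hj hj' heq
      have h3 := h2 d ((hmem d).1 hd) e ((hmem e).1 he) hde
      have h4 : s d + i * d ∈ shiftA n d (s d) ∩ shiftA n e (s e) :=
        ⟨⟨i, hi, hi', rfl⟩, ⟨j, hj, hj', heq⟩⟩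
      rw [h3] at h4
      exact h4
  · rintro ⟨s, h1, h2⟩
    refine ⟨s, ?_, ?_⟩
    · rintro d hd x ⟨i, hi, hi', rfl⟩
      exact h1 d ((hmem d).2 hd) i hi hi'
    · intro d hd e he hde
      rw [Set.eq_empty_iff_forall_notMem]
      rintro x ⟨⟨i, hi, hi', rfl⟩, ⟨j, hj, hj', heq⟩⟩
      exact h2 d ((hmem d).2 hd) e ((hmem e).2 he) hde i j hi hi' hj hj' heq

/-- **`m_{ℙ(√n)}(n) ~ (4/3) n^{3/2} / ln n`.** -/
theorem result : Tendsto (fun n : ℕ => (mD n (P n) : ℝ) * Real.log n / (n : ℝ) ^ (3 / 2 : ℝ)) atTop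
    (𝓝 (4 / 3)) := by
  refine Pool.Agent.X25.Pk.prob2.congr fun n => ?_
  have : mD n (P n) = Pool.Agent.X25.Pk.ML (Pool.Agent.X25.Pk.Pr (Real.sqrt n)) (fun d => n / d) := by
    unfold mD Pool.Agent.X25.Pk.ML
    congr 1
    ext m
    exact packs_iff n m
  rw [this]

end Pool.Agent.Results.MP_fdcff6_co.PrimesUpToSqrt
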